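import Pool.Agent.Helper99.DF.St

set_option autoImplicit false

/-!
# Project DF: the search procedure (module FIN)
-/

namespace Pool.Agent.Helper90.DF

open Pool.Agent.Helper99.DF Pool.Agent.Helper4.IL

/-- Codes of the search. -/
abbrev Cd : Type := (ℕ × List ℤ) × ((ℕ × ℕ) × Cert)

/-- The first `t` iterates of the list are nonnegative. -/
def NN (t : ℕ) (l : List ℤ) : Prop := ∀ j < t, ∀ z ∈ TL^[j] l, 0 ≤ z

/-- The code proves that some iterate is negative somewhere. -/
def neg (q : Inp × Cd) : Prop :=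
  ver q.1 q.2.1.1 q.2.1.2 ∧ q.2.2.1.2 + 1 + q.2.2.1.1 < q.2.1.2.length ∧
    ¬ 0 ≤ sq (TL^[q.2.2.1.1] q.2.1.2) (q.2.2.1.2 + 1)

/-- The code proves that all iterates are nonnegative. -/
def posi (q : Inp × Cd) : Prop :=
  ver q.1 q.2.1.1 q.2.1.2 ∧ fin0 q.1 q.2.1.2 ∧ chk (TL^[q.2.2.1.1] q.2.1.2) q.2.2.2 ∧
    NN q.2.2.1.1 q.2.1.2

theorem pr_nonneg : PrimrecPred (fun z : ℤ => 0 ≤ z) :=
  (Primrec.eq.comp primrec_int_neg_toNat (Primrec.const 0)).of_eq fun z => by
    constructor <;> intro h <;> omega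

theorem pr_NN (h1 : StPR1) : PrimrecRel NN := by
  have h2 : PrimrecPred (fun L : List ℤ => ∀ z ∈ L, 0 ≤ z) :=
    PrimrecPred.forall_mem_list pr_nonneg
  have h3 : PrimrecRel (fun (j : ℕ) (l : List ℤ) => ∀ z ∈ TL^[j] l, 0 ≤ z) :=
    PrimrecPred.comp h2 h1
  have h4 := PrimrecRel.comp (PrimrecRel.forall_mem_list h3)
    (Primrec.list_range.comp (Primrec.fst (α := ℕ) (β := List ℤ))) Primrec.snd
  exact h4.of_eq fun q => by simp [NN]

theorem pr_neg (h1 : StPR1) (h3 : StVP) : PrimrecPred neg := by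
  have hx : Primrec (fun q : Inp × Cd => q.1) := Primrec.fst
  have hw : Primrec (fun q : Inp × Cd => q.2.1.1) :=
    Primrec.fst.comp (Primrec.fst.comp Primrec.snd)
  have hl : Primrec (fun q : Inp × Cd => q.2.1.2) :=
    Primrec.snd.comp (Primrec.fst.comp Primrec.snd)
  have ht : Primrec (fun q : Inp × Cd => q.2.2.1.1) :=
    Primrec.fst.comp (Primrec.fst.comp (Primrec.snd.comp Primrec.snd))
  have hk : Primrec (fun q : Inp × Cd => q.2.2.1.2) :=
    Primrec.snd.comp (Primrec.fst.comp (Primrec.snd.comp Primrec.snd))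
  have hT : Primrec (fun q : Inp × Cd => TL^[q.2.2.1.1] q.2.1.2) :=
    Primrec.comp (f := fun q : ℕ × List ℤ => TL^[q.1] q.2) h1 (Primrec.pair ht hl)
  have a1 : PrimrecPred (fun q : Inp × Cd => ver q.1 q.2.1.1 q.2.1.2) :=
    PrimrecPred.comp (p := fun q : Inp × (ℕ × List ℤ) => ver q.1 q.2.1 q.2.2) h3.1
      (Primrec.pair hx (Primrec.pair hw hl))
  have a2 : PrimrecPred (fun q : Inp × Cd => q.2.2.1.2 + 1 + q.2.2.1.1 < q.2.1.2.length) :=
    Primrec.nat_lt.comp (Primrec.nat_add.comp (Primrec.succ.comp hk) ht)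
      (Primrec.list_length.comp hl)
  have a3 : Primrec (fun q : Inp × Cd => sq (TL^[q.2.2.1.1] q.2.1.2) (q.2.2.1.2 + 1)) :=
    (Primrec.list_getD 0).comp hT (Primrec.succ.comp hk)
  have a4 : PrimrecPred (fun q : Inp × Cd =>
      ¬ 0 ≤ sq (TL^[q.2.2.1.1] q.2.1.2) (q.2.2.1.2 + 1)) :=
    PrimrecPred.not (PrimrecPred.comp pr_nonneg a3)
  exact PrimrecPred.and a1 (PrimrecPred.and a2 a4)

theorem pr_posi (h1 : StPR1) (h2 : StPRC) (h3 : StVP) : PrimrecPred posi := by
  have hx : Primrec (fun q : Inp × Cd => q.1) := Primrec.fst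
  have hw : Primrec (fun q : Inp × Cd => q.2.1.1) :=
    Primrec.fst.comp (Primrec.fst.comp Primrec.snd)
  have hl : Primrec (fun q : Inp × Cd => q.2.1.2) :=
    Primrec.snd.comp (Primrec.fst.comp Primrec.snd)
  have ht : Primrec (fun q : Inp × Cd => q.2.2.1.1) :=
    Primrec.fst.comp (Primrec.fst.comp (Primrec.snd.comp Primrec.snd))
  have hc : Primrec (fun q : Inp × Cd => q.2.2.2) :=
    Primrec.snd.comp (Primrec.snd.comp Primrec.snd)
  have hT : Primrec (fun q : Inp × Cd => TL^[q.2.2.1.1] q.2.1.2) :=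
    Primrec.comp (f := fun q : ℕ × List ℤ => TL^[q.1] q.2) h1 (Primrec.pair ht hl)
  have a1 : PrimrecPred (fun q : Inp × Cd => ver q.1 q.2.1.1 q.2.1.2) :=
    PrimrecPred.comp (p := fun q : Inp × (ℕ × List ℤ) => ver q.1 q.2.1 q.2.2) h3.1
      (Primrec.pair hx (Primrec.pair hw hl))
  have a2 : PrimrecPred (fun q : Inp × Cd => fin0 q.1 q.2.1.2) :=
    PrimrecPred.comp (p := fun q : Inp × List ℤ => fin0 q.1 q.2) h3.2 (Primrec.pair hx hl)
  have a3 : PrimrecPred (fun q : Inp × Cd => chk (TL^[q.2.2.1.1] q.2.1.2) q.2.2.2) :=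
    PrimrecPred.comp (p := fun q : List ℤ × Cert => chk q.1 q.2) h2 (Primrec.pair hT hc)
  have a4 : PrimrecPred (fun q : Inp × Cd => NN q.2.2.1.1 q.2.1.2) :=
    PrimrecRel.comp (pr_NN h1) ht hl
  exact PrimrecPred.and a1 (PrimrecPred.and a2 (PrimrecPred.and a3 a4))

/-- The answer of a code. -/
noncomputable def ans (x : Inp) (d : Cd) : Option Bool := by
  classical exact if neg (x, d) then some false else if posi (x, d) then some true else none

theorem pr_ans (h1 : StPR1) (h2 : StPRC) (h3 : StVP) : Primrec₂ ans := by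
  classical
  have h : Primrec (fun q : Inp × Cd =>
      if neg q then some false else if posi q then some true else none) :=
    Primrec.ite (pr_neg h1 h3) (Primrec.const _)
      (Primrec.ite (pr_posi h1 h2 h3) (Primrec.const _) (Primrec.const _))
  refine h.of_eq fun q => ?_
  unfold ans
  congr

/-- The search. -/
noncomputable def srch (x : Inp) (n : ℕ) : Option Bool :=
  (Encodable.decode (α := Cd) n).bind (ans x)

theorem pr_srch (h1 : StPR1) (h2 : StPRC) (h3 : StVP) : Primrec₂ srch := by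
  have h : Primrec (fun q : Inp × ℕ => (Encodable.decode (α := Cd) q.2).bind (ans q.1)) := by
    refine Primrec.option_bind (Primrec.decode.comp Primrec.snd) ?_
    exact (pr_ans h1 h2 h3).comp (Primrec.fst.comp Primrec.fst) Primrec.snd
  exact h

theorem srch_mem {x : Inp} {n : ℕ} {β : Bool} (h : β ∈ srch x n) : ∃ d : Cd, β ∈ ans x d := by
  unfold srch at h
  rw [Option.mem_def, Option.bind_eq_some_iff] at h
  obtain ⟨d, _, h⟩ := h
  exact ⟨d, h⟩

theorem mem_srch {x : Inp} {d : Cd} {β : Bool} (h : β ∈ ans x d) :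
    β ∈ srch x (Encodable.encode d) := by
  unfold srch
  rw [Encodable.encodek]
  exact h

theorem ans_true {x : Inp} {d : Cd} (h : true ∈ ans x d) : posi (x, d) := by
  unfold ans at h
  split_ifs at h with h1 h2
  · simp at h
  · exact h2
  · simp at h

theorem ans_false {x : Inp} {d : Cd} (h : false ∈ ans x d) : neg (x, d) := by
  unfold ans at h
  split_ifs at h with h1 h2
  · exact h1
  · simp at h
  · simp at h

theorem ans_neg {x : Inp} {d : Cd} (h : neg (x, d)) : false ∈ ans x d := by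
  unfold ans
  rw [if_pos h]
  rfl

theorem ans_posi {x : Inp} {d : Cd} (h : posi (x, d)) : ∃ β, β ∈ ans x d := by
  unfold ans
  by_cases h1 : neg (x, d)
  · rw [if_pos h1]
    exact ⟨_, rfl⟩
  · rw [if_neg h1, if_pos h]
    exact ⟨_, rfl⟩

theorem sq_mem {L : List ℤ} {k : ℕ} (hk : k < L.length) : sq L k ∈ L := by
  unfold Pool.Agent.Helper99.DF.sq
  rw [List.getD_eq_getElem _ _ hk]
  exact List.getElem_mem hk

theorem T_zero {b : ℕ → ℤ} (hb : b 0 = 0) (t : ℕ) : (T^[t] b) 0 = 0 := by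
  induction t with
  | zero => exact hb
  | succ t ih =>
    rw [T_succ, ih]
    simp

theorem hFIN (h1 : StPR1) (h2 : StPRC) (h3 : StVP) (h4 : StVER) (h5 : StTRA) (h6 : StCMP)
    (h7 : StSND) : StFIN := by
  refine ⟨fun x => Nat.rfindOpt (srch x), Partrec.rfindOpt (pr_srch h1 h2 h3).to_comp, ?_⟩
  intro x hS a ha
  obtain ⟨v1, v2⟩ := h4 x a hS ha
  -- halting in the negative case
  have hneg : ¬ InfLC a → (Nat.rfindOpt (srch x)).Dom := by
    intro hn
    unfold InfLC at hn
    push Not at hn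
    obtain ⟨i, n, hin⟩ := hn
    obtain ⟨w, l, hlen, hver, -⟩ := v2 (n + 1 + i)
    obtain ⟨e1, -⟩ := v1 w l hver
    obtain ⟨t1, -⟩ := h5 a w l hver.1 hver.2.1 e1
    have hq : (((T^[i] (sq l)) (n + 1) : ℤ) : ℚ) < 0 := by
      rw [t1 i n (by omega)]
      have : (0 : ℚ) < (w : ℚ) ^ (2 ^ i) := by
        have := hver.1
        positivity
      exact mul_neg_of_pos_of_neg this hin
    have hq' : (T^[i] (sq l)) (n + 1) < 0 := by exact_mod_cast hq
    have hh : neg (x, (((w, l), ((i, n), default)) : Cd)) := by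
      refine ⟨hver, by show n + 1 + i < l.length; omega, ?_⟩
      show ¬ 0 ≤ sq (TL^[i] l) (n + 1)
      rw [sq_TL_iter]
      omega
    exact Nat.rfindOpt_dom.2 ⟨_, _, mem_srch (ans_neg hh)⟩
  refine ⟨?_, ?_, hneg⟩
  · intro β hβ
    obtain ⟨n, hn⟩ := Nat.rfindOpt_spec hβ
    obtain ⟨d, hd⟩ := srch_mem hn
    obtain ⟨⟨w, l⟩, ⟨t, k⟩, c⟩ := d
    cases β with
    | false =>
      obtain ⟨hver, hlen, hlt⟩ := ans_false hd
      simp only at hver hlen hlt
      obtain ⟨e1, -⟩ := v1 w l hver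
      obtain ⟨t1, -⟩ := h5 a w l hver.1 hver.2.1 e1
      refine ⟨fun h => absurd h (by simp), fun h => ?_⟩
      exfalso
      apply hlt
      rw [sq_TL_iter]
      have h8 := t1 t k (by omega)
      have h9 := h t k
      have h10 : (0 : ℚ) ≤ (((T^[t] (sq l)) (k + 1) : ℤ) : ℚ) := by
        rw [h8]
        positivity
      exact_mod_cast h10
    | true =>
      refine ⟨fun _ => ?_, fun _ => rfl⟩
      obtain ⟨hver, hfin, hchk, hNN⟩ := ans_true hd
      simp only at hver hfin hchk hNN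
      obtain ⟨e1, e2⟩ := v1 w l hver
      obtain ⟨-, t2⟩ := h5 a w l hver.1 hver.2.1 e1
      have t3 := t2 (e2 hfin)
      intro i m
      have h8 : 0 ≤ (T^[i] (sq l)) (m + 1) := by
        rcases lt_or_ge i t with hit | hit
        · rw [← sq_TL_iter]
          rcases lt_or_ge (m + 1) (TL^[i] l).length with hm | hm
          · exact hNN i hit _ (sq_mem hm)
          · rw [sq_ge _ _ hm]
        · obtain ⟨j, rfl⟩ := Nat.exists_eq_add_of_le' hit
          rw [Function.iterate_add_apply, ← sq_TL_iter l t]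
          exact h7 _ c hchk j (m + 1)
      have h9 := t3 i m
      have h10 : (0 : ℚ) ≤ (w : ℚ) ^ (2 ^ i) * (LC^[i] a) m := by
        rw [← h9]
        exact_mod_cast h8
      have h11 : (0 : ℚ) < (w : ℚ) ^ (2 ^ i) := by
        have := hver.1
        positivity
      exact nonneg_of_mul_nonneg_right h10 h11
  · rintro ⟨m, hm⟩
    by_cases hI : InfLC a
    · obtain ⟨w, l, hlen, hver, hf⟩ := v2 m
      have hfin := hf hm
      obtain ⟨e1, e2⟩ := v1 w l hver
      obtain ⟨-, t2⟩ := h5 a w l hver.1 hver.2.1 e1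
      have t3 := t2 (e2 hfin)
      have hall : ∀ t k, 0 ≤ (T^[t] (sq l)) k := by
        intro t k
        cases k with
        | zero => rw [T_zero hver.2.1]
        | succ k =>
          have h9 := t3 t k
          have h10 : (0 : ℚ) ≤ (((T^[t] (sq l)) (k + 1) : ℤ) : ℚ) := by
            rw [h9]
            have := hI t k
            positivity
          exact_mod_cast h10
      obtain ⟨t, c, hc⟩ := h6 l hver.2.1 hall
      have hh : posi (x, (((w, l), ((t, 0), c)) : Cd)) := by
        refine ⟨hver, hfin, hc, ?_⟩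
        intro j _ z hz
        obtain ⟨i, hi, rfl⟩ := List.getElem_of_mem hz
        have h8 : sq (TL^[j] l) i = (TL^[j] l)[i] := by
          unfold Pool.Agent.Helper99.DF.sq
          rw [List.getD_eq_getElem _ _ hi]
        have h9 := hall j i
        rw [← sq_TL_iter, h8] at h9
        exact h9
      obtain ⟨β, hβ⟩ := ans_posi hh
      exact Nat.rfindOpt_dom.2 ⟨_, _, mem_srch hβ⟩
    · exact hneg hI

end Pool.Agent.Helper90.DF
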